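import Pool.Agent.W558.WA.Defs

set_option autoImplicit false
set_option linter.unusedVariables false
set_option linter.unusedSectionVars false

universe u

open Polynomial AlgebraicGeometry CategoryTheory Pool.Agent.H920R2 TensorProduct

namespace Pool.Agent.W558

/-! ## Global part -/

/-- OVP: principalization by a logarithmic modification with nonnegative matrix. -/
def WA_ovp : Prop := ∀ (k K : Type u) [Field k] [Field K] [Algebra k K] (R0 R : Subalgebra k K)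
  (T I G : Type) [Finite T] [Fintype I] [Finite G] (M : LM R0 R T I) (Γ : G → I → ℤ),
  ∃ (T' I' : Type) (_ : Finite T') (_ : Fintype I') (M' : LM R0 R T' I') (π : T' → T)
    (Θ : I' → I → ℤ), Ov M M' π Θ ∧ (∀ i' i, 0 ≤ Θ i' i) ∧
    ∀ a b, Cmp M' (fun a i' => ∑ i, Θ i' i * Γ a i) a b

/-- SUM: normal form of a sum. -/
def WA_sum : Prop := ∀ (p : ℕ) [Fact p.Prime] (k K : Type u) [Field k] [Field K] [Algebra k K]
  [CharP K p] (R0 R : Subalgebra k K) (T I ι : Type) [Finite T] [Fintype I] [Fintype ι]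
  [Nonempty ι] (M : LM R0 R T I) (f : ι → K) (n : ι → I → ℤ) (a h : T → ι → K),
  NBS p M f n a h →
  ∃ (T' I' : Type) (_ : Finite T') (_ : Fintype I') (M' : LM R0 R T' I') (π : T' → T)
    (Θ : I' → I → ℤ) (n' : I' → ℤ) (a' h' : T' → K),
    Ov M M' π Θ ∧ NAS p M' (∑ j, f j) n' a' h'

/-- PROD: the product of two models. -/
def WA_prod : Prop := ∀ (p : ℕ) (k E1 E2 L : Type u) [Field k] [Field E1] [Field E2] [Field L]
  [Algebra k E1] [Algebra k E2] [Algebra k L] [Algebra E1 L] [Algebra E2 L]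
  [IsScalarTower k E1 L] [IsScalarTower k E2 L],
  Function.Injective (Algebra.TensorProduct.productMap (IsScalarTower.toAlgHom k E1 L)
    (IsScalarTower.toAlgHom k E2 L)) →
  (∀ x : L, ∃ a b : E1 ⊗[k] E2, b ≠ 0 ∧
    x * Algebra.TensorProduct.productMap (IsScalarTower.toAlgHom k E1 L)
      (IsScalarTower.toAlgHom k E2 L) b =
      Algebra.TensorProduct.productMap (IsScalarTower.toAlgHom k E1 L)
      (IsScalarTower.toAlgHom k E2 L) a) →
  ∀ (T1 I1 T2 I2 ι1 ι2 G1 G2 : Type) [Finite T1] [Finite T2] [Fintype I1] [Fintype I2]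
    (M1 : LM (⊥ : Subalgebra k E1) ⊤ T1 I1) (M2 : LM (⊥ : Subalgebra k E2) ⊤ T2 I2)
    (f1 : ι1 → E1) (n1 : ι1 → I1 → ℤ) (a1 h1 : T1 → ι1 → E1)
    (f2 : ι2 → E2) (n2 : ι2 → I2 → ℤ) (a2 h2 : T2 → ι2 → E2)
    (g1 : G1 → E1) (Γ1 : G1 → I1 → ℤ) (g2 : G2 → E2) (Γ2 : G2 → I2 → ℤ),
    NBS p M1 f1 n1 a1 h1 → NBS p M2 f2 n2 a2 h2 → Fn M1 g1 Γ1 → Fn M2 g2 Γ2 →
    Frc M1 → Frc M2 →
    ∃ (T I : Type) (_ : Finite T) (_ : Fintype I) (M : LM (⊥ : Subalgebra k L) ⊤ T I)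
      (n : ι1 ⊕ ι2 → I → ℤ) (a h : T → ι1 ⊕ ι2 → L) (Γ : G1 ⊕ G2 → I → ℤ),
      NBS p M (Sum.elim (fun j => algebraMap E1 L (f1 j)) fun j => algebraMap E2 L (f2 j)) n a h ∧
      Fn M (Sum.elim (fun j => algebraMap E1 L (g1 j)) fun j => algebraMap E2 L (g2 j)) Γ ∧
      Frc M

/-- The local ring of the divisor `Z ^ p - Z = f` in the line with coordinate `Z` over `L`. -/
def IsQA (p : ℕ) {k L N : Type u} [Field k] [Field L] [Field N] [Algebra k L] [Algebra k N]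
    [Algebra L N] (Z : N) (f : L) (Q : Subalgebra k N) : Prop :=
  ∀ x : N, x ∈ Q ↔
    ∃ P P' : L[X], ¬ ((X ^ p - X - C f : L[X]) ∣ P') ∧ x * aeval Z P' = aeval Z P

/-- BUN: the projective line bundle with the local coordinates `(Z - a t) / x ^ m`. -/
def WA_bun : Prop := ∀ (p : ℕ) [Fact p.Prime] (k L N : Type u) [Field k] [CharP k p] [Field L]
  [Field N] [Algebra k L] [Algebra k N] [Algebra L N] [IsScalarTower k L N] (T I G : Type)
  [Finite T] [Fintype I] (M : LM (⊥ : Subalgebra k L) ⊤ T I) (f : L) (n : I → ℤ) (a h : T → L)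
  (g : G → L) (Γ : G → I → ℤ),
  NAS p M f n a h → Frc M → Fn M g Γ → (∀ b : L, b ^ p - b ≠ f) →
  ∀ Z : N, Transcendental L Z → (∀ x : N, ∃ P P' : L[X], P' ≠ 0 ∧ x * aeval Z P' = aeval Z P) →
  ∀ Q : Subalgebra k N, IsQA p Z f Q →
  ∃ (T' I' : Type) (_ : Finite T') (_ : Fintype I') (M' : LM (⊥ : Subalgebra k N) ⊤ T' I')
    (y h' r : T' → N) (c μ : I' → ℤ) (Γ' : G → I' → ℤ),
    PAS p M' (Z ^ p - Z - algebraMap L N f) Q y h' r c μ ∧ Lq M' Q ∧
    Fn M' (fun b => algebraMap L N (g b)) Γ'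

/-- CP: the divisors `y t = 0` on the different charts agree on the component `i` of the boundary
if `c i` is positive. -/
def WA_cp : Prop := ∀ (p : ℕ) [Fact p.Prime] (k N : Type u) [Field k] [PerfectField k] [CharP k p]
  [Field N] [Algebra k N] (T I : Type) [Fintype I] (M : LM (⊥ : Subalgebra k N) ⊤ T I) (F : N)
  (Q : Subalgebra k N) (y h r : T → N) (c μ : I → ℤ), PAS p M F Q y h r c μ →
  ∀ i, 0 < c i → ∀ t t', ∃ n : ℕ, ∃ α ∈ M.A t, ∃ β ∈ M.A t,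
    (M.H t' / M.H t) ^ n * y t' = α * y t + β * M.x t i

/-- PBL: the blowup of the intersection of the component `i` of the boundary and of the divisors
`y t = 0`. -/
def WA_pbl : Prop := ∀ (p : ℕ) [Fact p.Prime] (k N : Type u) [Field k] [CharP k p] [Field N]
  [Algebra k N] (T I G : Type) [Finite T] [Fintype I] [DecidableEq I]
  (M : LM (⊥ : Subalgebra k N) ⊤ T I) (F : N) (Q : Subalgebra k N) (y h r : T → N) (c μ : I → ℤ)
  (g : G → N) (Γ : G → I → ℤ), PAS p M F Q y h r c μ → Lq M Q → Fn M g Γ → ∀ i, 0 < c i →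
  (∀ t t', ∃ n : ℕ, ∃ α ∈ M.A t, ∃ β ∈ M.A t,
    (M.H t' / M.H t) ^ n * y t' = α * y t + β * M.x t i) →
  ∃ (M' : LM (⊥ : Subalgebra k N) ⊤ (T × Bool) (Option I)) (y' h' r' : T × Bool → N)
    (μ' : Option I → ℤ) (Γ' : G → Option I → ℤ),
    PAS p M' F Q y' h' r' (fun o => o.elim (c i - p) c) μ' ∧ Lq M' Q ∧ Fn M' g Γ' ∧
    SepY M' y' (some i) ∧ (∀ l l', Sep M l l' → Sep M' (some l) (some l')) ∧
    (∀ l, SepY M y l → SepY M' y' (some l)) ∧ (∀ l, Sep M i l → Sep M' none (some l)) ∧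
    (∀ l, SepY M y l → Sep M' none (some l))

/-- TBL: the blowup of the intersection of two components of the boundary. -/
def WA_tbl : Prop := ∀ (p : ℕ) [Fact p.Prime] (k N : Type u) [Field k] [CharP k p] [Field N]
  [Algebra k N] (T I G : Type) [Finite T] [Fintype I] [DecidableEq I]
  (M : LM (⊥ : Subalgebra k N) ⊤ T I) (F : N) (Q : Subalgebra k N) (y h r : T → N) (c μ : I → ℤ)
  (g : G → N) (Γ : G → I → ℤ), PAS p M F Q y h r c μ → Lq M Q → Fn M g Γ → ∀ i j, i ≠ j →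
  0 < c i → c j < 0 →
  ∃ (M' : LM (⊥ : Subalgebra k N) ⊤ (T × Bool) (Option I)) (y' h' r' : T × Bool → N)
    (μ' : Option I → ℤ) (Γ' : G → Option I → ℤ),
    PAS p M' F Q y' h' r' (fun o => o.elim (c i + c j) c) μ' ∧ Lq M' Q ∧ Fn M' g Γ' ∧
    Sep M' (some i) (some j) ∧ (∀ l l', Sep M l l' → Sep M' (some l) (some l')) ∧
    (∀ l, Sep M i l → Sep M' none (some l)) ∧ (∀ l, Sep M j l → Sep M' none (some l)) ∧
    (∀ l, SepY M y l → SepY M' y' (some l)) ∧ (SepY M y i → SepY M' y' none)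

/-- PPR: principalization. -/
def WA_ppr : Prop := ∀ (p : ℕ) [Fact p.Prime] (k N : Type u) [Field k] [PerfectField k]
  [CharP k p] [Field N] [Algebra k N] (T I G : Type) [Finite T] [Fintype I]
  (M : LM (⊥ : Subalgebra k N) ⊤ T I) (F : N) (Q : Subalgebra k N) (y h r : T → N)
  (c μ : I → ℤ) (g : G → N) (Γ : G → I → ℤ), PAS p M F Q y h r c μ → Lq M Q → Fn M g Γ →
  ∃ (T' I' : Type) (_ : Finite T') (_ : Fintype I') (M' : LM (⊥ : Subalgebra k N) ⊤ T' I')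
    (y' h' r' : T' → N) (c' μ' : I' → ℤ) (Γ' : G → I' → ℤ),
    PAS p M' F Q y' h' r' c' μ' ∧ Lq M' Q ∧ Fn M' g Γ' ∧ Fin2 M' y' c'

/-- PCUT: restriction to the divisor of `F`. -/
def WA_pcut : Prop := ∀ (p : ℕ) [Fact p.Prime] (k N K : Type u) [Field k] [PerfectField k]
  [CharP k p] [Field N] [Algebra k N] [Field K] [Algebra k K] (T I G : Type) [Finite T] [Fintype I]
  (M : LM (⊥ : Subalgebra k N) ⊤ T I) (F : N) (Q : Subalgebra k N) (y h r : T → N) (c μ : I → ℤ)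
  (g : G → N) (Γ : G → I → ℤ), PAS p M F Q y h r c μ → Lq M Q → Fn M g Γ → Fin2 M y c →
  F ∈ Q → F ≠ 0 → ∀ π : Q →ₐ[k] K, (∀ q : Q, π q = 0 ↔ ∃ r ∈ Q, (q : N) = F * r) →
  Function.Surjective π → (∀ x : N, x ∈ Q ∨ x⁻¹ ∈ Q) →
  ∀ g' : G → K, (∀ b (hb : g b ∈ Q), g' b = π ⟨g b, hb⟩) →
  ∃ (T' I' : Type) (_ : Finite T') (_ : Fintype I') (M' : LM (⊥ : Subalgebra k K) ⊤ T' I')
    (Γ' : G → I' → ℤ), Fn M' g' Γ' ∧ Frc M'

/-- IRR: irreducibility of Artin-Schreier polynomials. -/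
def WA_irr : Prop := ∀ (p : ℕ) [Fact p.Prime] (L : Type u) [Field L] [CharP L p] (f : L),
  (∀ b : L, b ^ p - b ≠ f) → Irreducible (X ^ p - X - C f : L[X])

/-! ## Surfaces: the local theory -/

/-- WB: poles of `b` are determined by the poles of `b ^ p - b`. -/
def WA_wb : Prop := ∀ (p : ℕ) [Fact p.Prime] (k E : Type u) [Field k] [Field E] [Algebra k E]
  [PerfectField k] [CharP k p], Algebra.trdeg k E = 2 → ∀ (O : Subalgebra k E) (x y : E),
  Pt2 O → Par O x y → ∀ (b : E) (N M : ℕ), (b ^ p - b) * (x ^ N * y ^ M) ∈ O →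
    b * (x ^ (N / p) * y ^ (M / p)) ∈ O

/-- PX: functions with small derivative along `x = 0`. -/
def WA_px : Prop := ∀ (p : ℕ) [Fact p.Prime] (k E : Type u) [Field k] [Field E] [Algebra k E]
  [PerfectField k] [CharP k p], Algebra.trdeg k E = 2 → ∀ (O : Subalgebra k E) (x y : E)
  (D2 : Derivation k E E), Pt2 O → Par O x y → (∀ a ∈ O, D2 a ∈ O) → D2 x = 0 → D2 y = 1 →
  ∀ h ∈ O, ∀ M : ℕ, (∃ w ∈ O, y * D2 h - (M : E) * h = x * w) →
    ∃ b ∈ O, ∃ w ∈ O, h - y ^ (M % p) * b ^ p = x * w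

/-- T: reduction at a point. -/
def WA_t : Prop := ∀ (p : ℕ) [Fact p.Prime] (k E : Type u) [Field k] [Field E] [Algebra k E]
  [PerfectField k] [CharP k p], Algebra.trdeg k E = 2 → ∀ (O : Subalgebra k E) (x y : E),
  Pt2 O → Par O x y → ∀ (f : E) (N M : ℕ), f * (x ^ N * y ^ M) ∈ O →
  ∃ (ρ : ℕ) (g : ℕ → E) (a : E), ρ ≤ N + M ∧ (∀ j, g j ∈ O) ∧
    a * (x ^ (N / p) * y ^ (M / p)) ∈ O ∧
    (f - (a ^ p - a)) * (x ^ N * y ^ M) = ∑ j ∈ Finset.range (ρ + 1), g j * x ^ (ρ - j) * y ^ j ∧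
    (ρ = N + M ∨ ∃ j, j ≤ ρ ∧ ¬ NU O (g j) ∧
      ¬ ((p : ℤ) ∣ (ρ : ℤ) - j - N ∧ (p : ℤ) ∣ (j : ℤ) - M))

/-- X: existence of the invariants. -/
def WA_x : Prop := ∀ (p : ℕ) [Fact p.Prime] (k E : Type u) [Field k] [Field E] [Algebra k E]
  [PerfectField k] [CharP k p], Algebra.trdeg k E = 2 → ∀ (O : Subalgebra k E) (x y f : E),
  Pt2 O → Par O x y →
  ((∃ N : ℕ, f * x ^ N ∈ O) → ∃ N c, DN p O x y f N c) ∧
  ((∃ N : ℕ, f * (x * y) ^ N ∈ O) → ∃ N M c d, DC p O x y f N M c d)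

/-- RI: the invariants do not depend on the choice of the representative. -/
def WA_ri : Prop := ∀ (p : ℕ) [Fact p.Prime] (k E : Type u) [Field k] [Field E] [Algebra k E]
  [PerfectField k] [CharP k p], Algebra.trdeg k E = 2 → ∀ (O : Subalgebra k E) (x y f : E),
  Pt2 O → Par O x y →
  (∀ N c, DN p O x y f N c → ∀ a : E, (f - (a ^ p - a)) * x ^ N ∈ O → 1 ≤ N →
    Rs O (uo O x) x y (x ^ N) (f - (a ^ p - a)) c) ∧
  (∀ N M c d, DC p O x y f N M c d → ∀ a : E, (f - (a ^ p - a)) * (x ^ N * y ^ M) ∈ O →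
    (1 ≤ N → Rs O (uo O x ∪ uo O y) x y (x ^ N * y ^ M) (f - (a ^ p - a)) c) ∧
    (1 ≤ M → Rs O (uo O x ∪ uo O y) y x (x ^ N * y ^ M) (f - (a ^ p - a)) d)) ∧
  (∀ N c, DN p O x y f N c → ∀ (a : E) (N' : ℕ), (f - (a ^ p - a)) * x ^ N' ∈ O → N ≤ N') ∧
  (∀ N M c d, DC p O x y f N M c d → ∀ (a : E) (N' M' : ℕ),
    (f - (a ^ p - a)) * (x ^ N' * y ^ M') ∈ O → N ≤ N' ∧ M ≤ M')

/-- U: uniqueness and invariance of the invariants. -/
def WA_u : Prop := ∀ (p : ℕ) [Fact p.Prime] (k E : Type u) [Field k] [Field E] [Algebra k E]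
  [PerfectField k] [CharP k p], Algebra.trdeg k E = 2 → ∀ (O : Subalgebra k E) (x y f : E),
  Pt2 O → Par O x y →
  (∀ N c N' c', DN p O x y f N c → DN p O x y f N' c' → N = N' ∧ (1 ≤ N → c = c')) ∧
  (∀ N M c d N' M' c' d', DC p O x y f N M c d → DC p O x y f N' M' c' d' →
    N = N' ∧ M = M' ∧ (1 ≤ N → c = c') ∧ (1 ≤ M → d = d')) ∧
  (∀ x' y' N c, x' ∈ uo O x → Par O x' y' → DN p O x y f N c → DN p O x' y' f N c) ∧
  (∀ x' y' N M c d, x' ∈ uo O x → y' ∈ uo O y → DC p O x y f N M c d →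
    DC p O x' y' f N M c d) ∧
  (∀ N M c d, DC p O x y f N M c d → DC p O y x f M N d c) ∧
  (∀ N c, DN p O x y f N c → N = 0 ∨ c = 0 → GA p O (uo O x) f) ∧
  (∀ N M c d, DC p O x y f N M c d → (N = 0 ∧ M = 0) ∨ (1 ≤ N ∧ c = 0) ∨ (1 ≤ M ∧ d = 0) →
    GA p O (uo O x ∪ uo O y) f)

/-- A1: the blowup of a point on one component, at a point on the new component only. -/
def WA_a1 : Prop := ∀ (p : ℕ) [Fact p.Prime] (k E : Type u) [Field k] [Field E] [Algebra k E]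
  [PerfectField k] [CharP k p], Algebra.trdeg k E = 2 →
  ∀ (O O' : Subalgebra k E) (x y y' f : E) (N c N' c' : ℕ),
  Pt2 O → Pt2 O' → Par O x y → Quad O x O' → Par O' x y' → DN p O x y f N c → 1 ≤ N → 1 ≤ c →
  DN p O' x y' f N' c' → N' < N ∧ (1 ≤ N' → c' ≤ c)

/-- A2: the blowup of a point on one component, at a point on both components. -/
def WA_a2 : Prop := ∀ (p : ℕ) [Fact p.Prime] (k E : Type u) [Field k] [Field E] [Algebra k E]
  [PerfectField k] [CharP k p], Algebra.trdeg k E = 2 →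
  ∀ (O O' : Subalgebra k E) (x y f : E) (N c N' M' c' d' : ℕ),
  Pt2 O → Pt2 O' → Par O x y → Quad O y O' → Par O' y (x / y) → DN p O x y f N c → 1 ≤ N →
  1 ≤ c → DC p O' y (x / y) f N' M' c' d' →
  M' = N ∧ N' < N ∧ d' + (N - N') ≤ c + 1 ∧ (1 ≤ N' → c' ≤ N - N') ∧
    (c = 1 → 1 ≤ N' → 1 ≤ c' → 1 ≤ d' → IM p O' y (x / y) f N' M')

/-- A3: the blowup of a point on two components. -/
def WA_a3 : Prop := ∀ (p : ℕ) [Fact p.Prime] (k E : Type u) [Field k] [Field E] [Algebra k E]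
  [PerfectField k] [CharP k p], Algebra.trdeg k E = 2 →
  ∀ (O O' : Subalgebra k E) (x y f : E) (N M c d : ℕ),
  Pt2 O → Pt2 O' → Par O x y → Quad O x O' → DC p O x y f N M c d → 1 ≤ N + M →
  (1 ≤ N → 1 ≤ c) → (1 ≤ M → 1 ≤ d) →
  (∀ (y' : E) (N' c' : ℕ), (y / x)⁻¹ ∈ O' → Par O' x y' → DN p O' x y' f N' c' →
    N' < N + M ∧ (1 ≤ N' → c' + N' ≤ N + M) ∧ (1 ≤ N → N + M ≤ c + N') ∧
    (1 ≤ M → N + M ≤ d + N')) ∧
  ∀ (N' M' c' d' : ℕ), Par O' x (y / x) → DC p O' x (y / x) f N' M' c' d' →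
    M' = M ∧ N' < N + M ∧ (1 ≤ N' → c' + N' ≤ N + M) ∧ (1 ≤ N → N + M ≤ c + N') ∧
    (1 ≤ M → d' + (N + M) = d + N')

/-- A4: the blowup of a point on two components where the residual ideal is the maximal ideal. -/
def WA_a4 : Prop := ∀ (p : ℕ) [Fact p.Prime] (k E : Type u) [Field k] [Field E] [Algebra k E]
  [PerfectField k] [CharP k p], Algebra.trdeg k E = 2 →
  ∀ (O O' : Subalgebra k E) (x y f : E) (N M : ℕ),
  Pt2 O → Pt2 O' → Par O x y → Quad O x O' → 1 ≤ N → 1 ≤ M → IM p O x y f N M →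
  ((y / x)⁻¹ ∈ O' → GA p O' (uo O' x) f) ∧
  (Par O' x (y / x) → GA p O' (uo O' x ∪ uo O' (y / x)) f)

/-- WF: there is no infinite sequence of infinitely near bad points. -/
def WA_wf : Prop := ∀ (p : ℕ) [Fact p.Prime] (k E : Type u) [Field k] [Field E] [Algebra k E]
  [PerfectField k] [CharP k p], Algebra.trdeg k E = 2 → ∀ f : E,
  WellFounded (rAS (k := k) p f)

/-! ## Surfaces: the global theory -/

/-- PO: no poles outside of the boundary. -/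
def WA_po : Prop := ∀ (k E : Type u) [Field k] [Field E] [Algebra k E] [PerfectField k],
  Algebra.trdeg k E = 2 → ∀ (s : SM k E) (f : E), CA s f →
  ∀ t O, IsPt (s.M.A t) O → Po O (bdy s.M O) f

/-- GIN: the initial surface. -/
def WA_gin : Prop := ∀ (k E : Type u) [Field k] [Field E] [Algebra k E] [PerfectField k],
  Algebra.trdeg k E = 2 → ∀ (s : SM k E) (G : Type) [Finite G] (g : G → E), (∀ b, g b ≠ 0) →
  ∀ f : E, ∃ (s' : SM k E) (Γ : G → s'.I → ℤ), Fn s'.M g Γ ∧ CA s' f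

/-- FIN: there are finitely many bad points. -/
def WA_fin : Prop := ∀ (p : ℕ) [Fact p.Prime] (k E : Type u) [Field k] [Field E] [Algebra k E]
  [PerfectField k] [CharP k p], Algebra.trdeg k E = 2 → ∀ (s : SM k E) (f : E), CA s f →
  {O | (∃ t, IsPt (s.M.A t) O) ∧ ¬ GA p O (bdy s.M O) f}.Finite

/-- GIR: after finitely many blowups of points all points are good. -/
def WA_gir : Prop := ∀ (p : ℕ) [Fact p.Prime] (k E : Type u) [Field k] [Field E] [Algebra k E]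
  [PerfectField k] [CharP k p], Algebra.trdeg k E = 2 → ∀ (s : SM k E) (G : Type) [Finite G]
  (g : G → E) (Γ : G → s.I → ℤ), Fn s.M g Γ → ∀ f : E, CA s f →
  ∃ (s' : SM k E) (Γ' : G → s'.I → ℤ), Fn s'.M g Γ' ∧ CA s' f ∧
    ∀ t O, IsPt (s'.M.A t) O → GA p O (bdy s'.M O) f

/-- LOC: the normal form. -/
def WA_loc : Prop := ∀ (p : ℕ) [Fact p.Prime] (k E : Type u) [Field k] [Field E] [Algebra k E]
  [PerfectField k] [CharP k p], Algebra.trdeg k E = 2 → ∀ (s : SM k E) (G : Type) [Finite G]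
  (g : G → E) (Γ : G → s.I → ℤ), Fn s.M g Γ → ∀ f : E, CA s f →
  (∀ t O, IsPt (s.M.A t) O → GA p O (bdy s.M O) f) →
  ∃ (T I : Type) (_ : Finite T) (_ : Fintype I) (M : LM (⊥ : Subalgebra k E) ⊤ T I)
    (Γ' : G → I → ℤ) (n : I → ℤ) (a h : T → E), Fn M g Γ' ∧ NAS p M f n a h ∧ Frc M

end Pool.Agent.W558
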