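import Pool.Agent.W558.WD.All
import Pool.Agent.W991.WA.Ovp
import Pool.Agent.W366.WA.Sum
import Pool.Agent.W74.WA.Prod
import Pool.Agent.W305.WA.Bun
import Pool.Agent.W417.WA.CP
import Pool.Agent.W417.WA.PBL
import Pool.Agent.W440.WA.Tbl
import Pool.Agent.W409.WA.Ppr
import Pool.Agent.W174.WA.PCut
import Pool.Agent.W290.WA.Irr
import Pool.Agent.W392.WA.WB
import Pool.Agent.W352.WA.Px
import Pool.Agent.W32.WA.T
import Pool.Agent.W565.WA.X
import Pool.Agent.W335.WA.Ri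
import Pool.Agent.W924.WA.U
import Pool.Agent.W337.WA.A1
import Pool.Agent.W368.WA.A2
import Pool.Agent.W347.WA.A3
import Pool.Agent.W959.WA.Fin
import Pool.Agent.W356.WA.Gin
import Pool.Agent.W727.WA.Gir
import Pool.Agent.W479.WA.A4
import Pool.Agent.W417.WA.WF
import Pool.Agent.W202.WA.Loc

set_option autoImplicit false

universe u

namespace Pool.Agent.W558

theorem wa_ovp : WA_ovp.{u} := Pool.Agent.W991.WA.main
theorem wa_sum : WA_sum.{u} := Pool.Agent.W366.WA.Sum.main wa_ovp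
theorem wa_prod : WA_prod.{u} := Pool.Agent.W74.WA.Prod.main
theorem wa_bun : WA_bun.{u} := Pool.Agent.W305.WA.Bun.main wd_norm
theorem wa_cp : WA_cp.{u} := Pool.Agent.W417.WA.CP.main
theorem wa_pbl : WA_pbl.{u} := Pool.Agent.W417.WA.PBL.main
theorem wa_tbl : WA_tbl.{u} := Pool.Agent.W440.WA.Tbl.main
theorem wa_ppr : WA_ppr.{u} := Pool.Agent.W409.WA.Ppr.main wa_cp wa_pbl wa_tbl
theorem wa_pcut : WA_pcut.{u} := Pool.Agent.W174.WA.main
theorem wa_irr : WA_irr.{u} := Pool.Agent.W290.WA.main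
theorem wa_wb : WA_wb.{u} := Pool.Agent.W392.WA.main
theorem wa_px : WA_px.{u} := Pool.Agent.W352.WA.Px.main
theorem wa_t : WA_t.{u} := Pool.Agent.W32.WA.main
theorem wa_x : WA_x.{u} := Pool.Agent.W565.WA.main wd_der wd_thb wa_px
theorem wa_ri : WA_ri.{u} := Pool.Agent.W335.WA.main wa_wb
theorem wa_u : WA_u.{u} := Pool.Agent.W924.WAU.main wa_ri
theorem wa_a1 : WA_a1.{u} := Pool.Agent.W337.WA.A1.main wd_der wd_thb wd_od wd_qp wa_t wa_ri wa_u
theorem wa_a2 : WA_a2.{u} :=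
  Pool.Agent.W368.WA.main wd_der wd_thb wd_od wd_qp wd_qs wa_t wa_ri wa_u
theorem wa_a3 : WA_a3.{u} :=
  Pool.Agent.W347.WA.main wd_der wd_thb wd_od wd_qp wd_qs wa_t wa_ri wa_u
theorem wa_a4 : WA_a4.{u} := Pool.Agent.W479.WA.main wd_der wd_thb wd_od wd_qp wa_wb wa_t
theorem wa_wf : WA_wf.{u} :=
  Pool.Agent.W417.WA.WF.main wa_x wa_u wd_bnd wa_a1 wa_a2 wa_a3 wa_a4
theorem wa_po : WA_po.{u} := Pool.Agent.W356.WA.po
theorem wa_gin : WA_gin.{u} := Pool.Agent.W356.WA.main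
theorem wa_fin : WA_fin.{u} := Pool.Agent.W959.WA.main wa_x wd_ty wa_po wd_norm
theorem wa_gir : WA_gir.{u} := Pool.Agent.W727.WA.Gir.main wd_ty wd_bt wa_po wa_fin wa_wf
theorem wa_loc : WA_loc.{u} := Pool.Agent.W202.WA.main0

end Pool.Agent.W558
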