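import Pool.Agent.W558.WD.Asm4
import Pool.Agent.W558.WA.Stms

set_option autoImplicit false
set_option linter.unusedVariables false
set_option linter.unusedSectionVars false

universe u

open Polynomial TensorProduct

namespace Pool.Agent.W558

/-- The field `L` has a model on which the functions `f j` have a joint Artin-Schreier normal form
and the functions `g b` are locally monomials. -/
def GMA (p : ℕ) (k : Type u) {L : Type u} [Field k] [Field L] [Algebra k L] {ι G : Type}
    (f : ι → L) (g : G → L) : Prop :=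
  ∃ (T I : Type) (_ : Finite T) (_ : Fintype I) (M : LM (⊥ : Subalgebra k L) ⊤ T I)
    (n : ι → I → ℤ) (a h : T → ι → L) (Γ : G → I → ℤ), NBS p M f n a h ∧ Fn M g Γ ∧ Frc M

section gm

variable {p : ℕ} {k : Type u} [Field k]

lemma GMA.reindex {L : Type u} [Field L] [Algebra k L] {ι G ι' G' : Type} {f : ι → L} {g : G → L}
    (h : GMA p k f g) (e : ι' → ι) (he : Function.Injective e) (e' : G' → G) :
    GMA p k (f ∘ e) (g ∘ e') := by
  obtain ⟨T, I, hT, hI, M, n, a, h, Γ, hN, hF, hR⟩ := h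
  refine ⟨T, I, hT, hI, M, n ∘ e, fun t j => a t (e j), fun t j => h t (e j), Γ ∘ e',
    ⟨fun j => hN.n0 _, fun t j => hN.hA t _, fun t j => hN.eq t _, ?_⟩, fun b t => hF (e' b) t, hR⟩
  intro t κ _ _ φ j hj
  obtain ⟨v, hv, hv'⟩ := hN.ln t κ φ (e j) hj
  exact ⟨v, hv, fun l hl => hv' (e l) fun h => hl (he h)⟩

/-- Products, with algebra homomorphisms. -/
theorem gma_prod (hprod : WA_prod.{u}) {E1 E2 L : Type u} [Field E1] [Field E2]
    [Field L] [Algebra k E1] [Algebra k E2] [Algebra k L] (i1 : E1 →ₐ[k] L) (i2 : E2 →ₐ[k] L)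
    (hinj : Function.Injective (Algebra.TensorProduct.productMap i1 i2))
    (hfr : ∀ x : L, ∃ a b : E1 ⊗[k] E2, b ≠ 0 ∧
      x * Algebra.TensorProduct.productMap i1 i2 b = Algebra.TensorProduct.productMap i1 i2 a)
    {ι1 G1 ι2 G2 : Type} {f1 : ι1 → E1} {g1 : G1 → E1} {f2 : ι2 → E2} {g2 : G2 → E2}
    (h1 : GMA p k f1 g1) (h2 : GMA p k f2 g2) :
    GMA p k (Sum.elim (fun j => i1 (f1 j)) fun j => i2 (f2 j))
      (Sum.elim (fun j => i1 (g1 j)) fun j => i2 (g2 j)) := by
  obtain ⟨T1, I1, hT1, hI1, M1, n1, a1, h1, Γ1, hN1, hF1, hR1⟩ := h1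
  obtain ⟨T2, I2, hT2, hI2, M2, n2, a2, h2, Γ2, hN2, hF2, hR2⟩ := h2
  let _ : Algebra E1 L := i1.toRingHom.toAlgebra
  let _ : Algebra E2 L := i2.toRingHom.toAlgebra
  have t1 : IsScalarTower k E1 L := IsScalarTower.of_algebraMap_eq fun x => (i1.commutes x).symm
  have t2 : IsScalarTower k E2 L := IsScalarTower.of_algebraMap_eq fun x => (i2.commutes x).symm
  have e1 : IsScalarTower.toAlgHom k E1 L = i1 := AlgHom.ext fun x => rfl
  have e2 : IsScalarTower.toAlgHom k E2 L = i2 := AlgHom.ext fun x => rfl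
  obtain ⟨T, I, hT, hI, M, n, a, h, Γ, hN, hF, hR⟩ := hprod p k E1 E2 L
    (by rw [e1, e2]; exact hinj) (by rw [e1, e2]; exact hfr) T1 I1 T2 I2 ι1 ι2 G1 G2 M1 M2
    f1 n1 a1 h1 f2 n2 a2 h2 g1 Γ1 g2 Γ2 hN1 hN2 hF1 hF2 hR1 hR2
  exact ⟨T, I, hT, hI, M, n, a, h, Γ, hN, hF, hR⟩

/-- The point. -/
theorem gma_point {L : Type u} [Field L] [Algebra k L]
    (hL : ∀ x : L, ∃ c : k, algebraMap k L c = x) {ι G : Type} [IsEmpty ι] [IsEmpty G]
    (f : ι → L) (g : G → L) : GMA p k f g := by
  obtain ⟨T, I, hT, hI, M, n, a, h, Γ, hN, hF, hR⟩ := gm_point (p := p) hL f g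
  exact ⟨T, I, hT, hI, M, n, a, h, Γ, ⟨fun j => isEmptyElim j, fun _ j => isEmptyElim j,
    fun _ j => isEmptyElim j, fun _ κ _ _ φ j => isEmptyElim j⟩, hF, hR⟩

/-- Normal form of the sum. -/
theorem gma_sum (hsum : WA_sum.{u}) [Fact p.Prime] {L : Type u} [Field L] [Algebra k L]
    [CharP L p] {ι G : Type} [Finite ι] [Nonempty ι] {f : ι → L} {g : G → L}
    (h : GMA p k f g) (F : L) (hF : ∀ (_ : Fintype ι), F = ∑ j, f j) :
    ∃ (T I : Type) (_ : Finite T) (_ : Fintype I) (M : LM (⊥ : Subalgebra k L) ⊤ T I)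
      (n : I → ℤ) (a h : T → L) (Γ : G → I → ℤ), NAS p M F n a h ∧ Fn M g Γ ∧ Frc M := by
  obtain ⟨T, I, hT, hI, M, n, a, h, Γ, hN, hG, hR⟩ := h
  have : Fintype ι := Fintype.ofFinite ι
  obtain ⟨T', I', hT', hI', M', π, Θ, n', a', h', hO, hN'⟩ := hsum p k L ⊥ ⊤ T I ι M f n a h hN
  rw [hF inferInstance]
  exact ⟨T', I', hT', hI', M', n', a', h', _, hN', hG.ov hO, hR.ov hO⟩

end gm

section family

variable {p : ℕ} {k : Type u} [Field k]

/-- The model of the field of rational functions in `2 * m` variables. -/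
theorem gma_family (hprod : WA_prod.{u}) (G : Type)
    (hsurf : ∀ (f : RF k (Fin 2)) (c : G → RF k (Fin 2)), (∀ b, c b ≠ 0) →
      GMA p k (fun _ : Unit => f) c)
    (J : Type) [Finite J] : ∀ (L : Type u) [Field L] [Algebra k L] (v : J × Fin 2 → L)
    (hv : Rat (k := k) v) (f : J → RF k (Fin 2)) (c : J → G → RF k (Fin 2)),
    (∀ j b, c j b ≠ 0) →
    GMA p k (fun j : J =>
      rsub (hv.ind.comp (fun c => (j, c)) (Prod.mk_right_injective j)) (f j))
      (fun q : J × G =>
      rsub (hv.ind.comp (fun c => (q.1, c)) (Prod.mk_right_injective q.1)) (c q.1 q.2)) := by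
  refine Finite.induction_empty_option (P := fun J => ∀ (L : Type u) [Field L] [Algebra k L]
    (v : J × Fin 2 → L) (hv : Rat (k := k) v) (f : J → RF k (Fin 2))
    (c : J → G → RF k (Fin 2)), (∀ j b, c j b ≠ 0) →
    GMA p k (fun j : J =>
      rsub (hv.ind.comp (fun c => (j, c)) (Prod.mk_right_injective j)) (f j))
      (fun q : J × G =>
      rsub (hv.ind.comp (fun c => (q.1, c)) (Prod.mk_right_injective q.1)) (c q.1 q.2)))
      ?_ ?_ ?_ J
  · intro J J' e ih L _ _ v hv f c hc
    have h1 := ih L (v ∘ (e.prodCongr (Equiv.refl (Fin 2)))) (hv.equiv _) (f ∘ e) (c ∘ e)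
      (fun j b => hc _ _)
    have h2 := h1.reindex e.symm e.symm.injective (e.symm.prodCongr (Equiv.refl G))
    have h3 : ∀ (j j' : J') (hj : j = j') (w : Fin 2 → L) (hw : AlgebraicIndependent k w)
        (hw' : ∀ c, w c = v (j, c)) (φ : J' → RF k (Fin 2)), rsub (hv.ind.comp (fun c => (j', c))
          (Prod.mk_right_injective j')) (φ j') = rsub hw (φ j) := by
      rintro j _ rfl w hw hw' φ
      obtain rfl : w = v ∘ fun c => (j, c) := funext hw'
      rfl
    convert h2 using 1
    · funext j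
      exact h3 _ j (e.apply_symm_apply j) _ _ (fun c => rfl) f
    · funext q
      rcases q with ⟨j, b⟩
      exact h3 _ j (e.apply_symm_apply j) _ _ (fun c => rfl) (fun j => c j b)
  · intro L _ _ v hv f c hc
    have : IsEmpty (PEmpty × G) := inferInstance
    refine gma_point ?_ _ _
    intro x
    obtain ⟨P, Q, hQ, h1⟩ := hv.gen x
    obtain ⟨a, rfl⟩ := MvPolynomial.C_surjective _ P
    obtain ⟨b, rfl⟩ := MvPolynomial.C_surjective _ Q
    have hb : b ≠ 0 := by rintro rfl; exact hQ (map_zero _)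
    refine ⟨a / b, ?_⟩
    have hb' : algebraMap k L b ≠ 0 := by
      rw [Ne, FaithfulSMul.algebraMap_eq_zero_iff]; exact hb
    rw [MvPolynomial.aeval_C, MvPolynomial.aeval_C] at h1
    rw [map_div₀, div_eq_iff hb', h1]
  · intro J _ ih L _ _ v hv f c hc
    let v1 : J × Fin 2 → L := fun q => v (some q.1, q.2)
    let w : Fin 2 → L := fun c => v (none, c)
    have hs : Rat (k := k) (Sum.elim v1 w) := by
      have h1 := hv.equiv (optEquiv J)
      have h2 : v ∘ optEquiv J = Sum.elim v1 w := by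
        funext q
        rcases q with q | c <;> rfl
      rwa [h2] at h1
    have hv1 : AlgebraicIndependent k v1 := hs.ind.comp Sum.inl Sum.inl_injective
    have hw : AlgebraicIndependent k w := hs.ind.comp Sum.inr Sum.inr_injective
    have h1 := ih (RF k (J × Fin 2)) _ (rat_RF (J × Fin 2)) (fun j => f (some j))
      (fun j => c (some j)) (fun j b => hc _ _)
    have h2 := hsurf (f none) (c none) (fun b => hc _ _)
    have h3 := gma_prod hprod (rsub hv1) (rsub hw) (productMap_injective_of_ind hs.ind hv1 hw)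
      (productMap_gen hs hv1 hw) h1 h2
    have h4 := h3.reindex (fun i : Option J =>
      (match i with
        | some j => Sum.inl j
        | none => Sum.inr () : J ⊕ Unit))
      (by
        rintro (_ | j) (_ | j') h
        · rfl
        · simp at h
        · simp at h
        · simp only [Sum.inl.injEq] at h
          subst h; rfl)
      (fun q : Option J × G => (match q with
        | (some j, b) => Sum.inl (j, b)
        | (none, b) => Sum.inr b : (J × G) ⊕ G))
    have h5 : ∀ (j : J) (x : RF k (Fin 2)), rsub hv1 (rsub ((rat_RF (k := k) (J × Fin 2)).ind.comp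
        (fun c => (j, c)) (Prod.mk_right_injective j)) x) =
        rsub (hv.ind.comp (fun c => (some j, c)) (Prod.mk_right_injective (some j))) x := by
      intro j x
      rw [rsub_rsub]
      intro c
      change rsub hv1 (algebraMap (MvPolynomial (J × Fin 2) k) (RF k (J × Fin 2))
        (MvPolynomial.X (j, c))) = _
      rw [rsub_X]
      rfl
    convert h4 using 1
    · funext i
      rcases i with _ | j
      · rfl
      · exact (h5 j _).symm
    · funext q
      rcases q with ⟨_ | j, b⟩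
      · rfl
      · exact (h5 j _).symm

end family

section main

/-- Models of the Artin-Schreier extension. -/
theorem exists_LM_as (hirr : WA_irr.{u}) (hbun : WA_bun.{u}) (hppr : WA_ppr.{u})
    (hpcut : WA_pcut.{u}) (p : ℕ)
    [Fact p.Prime] (k L K : Type u) [Field k] [PerfectField k] [CharP k p] [Field L] [Field K]
    [Algebra k L] [Algebra k K] [Algebra L K] [IsScalarTower k L K] {T I G : Type} [Finite T]
    [Fintype I] (M : LM (⊥ : Subalgebra k L) ⊤ T I) (f : L) (n : I → ℤ) (a h : T → L)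
    (g : G → L) (Γ : G → I → ℤ) (hN : NAS p M f n a h) (hR : Frc M) (hG : Fn M g Γ)
    (hf : ∀ b : L, b ^ p - b ≠ f) (z : K) (hz : z ^ p - z = algebraMap L K f)
    (hgen : ∀ w : K, ∃ P : L[X], aeval z P = w) :
    ∃ (T' I' : Type) (_ : Finite T') (_ : Fintype I') (M' : LM (⊥ : Subalgebra k K) ⊤ T' I')
      (Γ' : G → I' → ℤ), Fn M' (fun b => algebraMap L K (g b)) Γ' ∧ Frc M' := by
  have hp : p.Prime := Fact.out
  have hcL : CharP L p := charP_of_injective_algebraMap (algebraMap k L).injective p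
  have hirr : Irreducible (X ^ p - X - C f : L[X]) := hirr p L f hf
  have hF : Prime (X ^ p - X - C f : L[X]) := hirr.prime
  have hz0 : aeval z (X ^ p - X - C f : L[X]) = 0 := by
    rw [map_sub, map_sub, map_pow, aeval_X, aeval_C, hz, sub_self]
  have hmon : (X ^ p - X - C f : L[X]).Monic := by
    have h1 : (X ^ p - X - C f : L[X]) = X ^ p - (X + C f) := by ring
    rw [h1]
    apply monic_X_pow_sub
    rw [degree_X_add_C]
    exact_mod_cast hp.one_lt
  have hz' : ∀ P : L[X], aeval z P = 0 ↔ (X ^ p - X - C f : L[X]) ∣ P := by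
    intro P
    have h1 : minpoly L z = X ^ p - X - C f :=
      (minpoly.eq_of_irreducible_of_monic hirr hz0 hmon).symm
    rw [← h1]
    exact (minpoly.dvd_iff).symm
  let N := FractionRing L[X]
  let Z : N := algebraMap L[X] N X
  have hZ : ∀ P : L[X], aeval Z P = algebraMap L[X] N P := by
    intro P
    have h1 : aeval Z = IsScalarTower.toAlgHom L L[X] N := by
      ext; simp [Z]
    rw [h1]; rfl
  have htr : Transcendental L Z := by
    rw [transcendental_iff]
    intro P hP
    rw [hZ] at hP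
    exact (FaithfulSMul.algebraMap_eq_zero_iff L[X] N).1 hP
  have hfr : ∀ x : N, ∃ P P' : L[X], P' ≠ 0 ∧ x * aeval Z P' = aeval Z P := by
    intro x
    obtain ⟨P, P', hP, rfl⟩ := IsFractionRing.div_surjective (A := L[X]) x
    have h0 := nonZeroDivisors.ne_zero hP
    refine ⟨P, P', h0, ?_⟩
    rw [hZ, hZ, div_mul_cancel₀ _ (alg_ne_zero h0)]
  have hQ : IsQA p Z f (FQ (k := k) hF) := by
    intro x
    simp only [hZ]
    exact mem_FQ hF
  obtain ⟨T1, I1, hT1, hI1, M1, y1, h1, r1, c1, μ1, Γ1, hP1, hL1, hF1⟩ :=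
    hbun p k L N T I G M f n a h g Γ hN hR hG hf Z htr hfr (FQ (k := k) hF) hQ
  obtain ⟨T2, I2, hT2, hI2, M2, y2, h2, r2, c2, μ2, Γ2, hP2, hL2, hF2, hfin⟩ :=
    hppr p k N T1 I1 G M1 _ (FQ (k := k) hF) y1 h1 r1 c1 μ1 (fun b => algebraMap L N (g b)) Γ1
      hP1 hL1 hF1
  have eF : Z ^ p - Z - algebraMap L N f = algebraMap L[X] N (X ^ p - X - C f) := by
    rw [← hZ, map_sub, map_sub, map_pow, aeval_X, aeval_C]
  rw [eF] at hP2
  refine hpcut p k N K T2 I2 G M2 _ (FQ (k := k) hF) y2 h2 r2 c2 μ2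
    (fun b => algebraMap L N (g b))
    Γ2 hP2 hL2 hF2 hfin (mem_FQ_of hF) (alg_ne_zero hF.ne_zero) (piZ hF z hz')
    (piZ_eq_zero hF z hz') (piZ_surj hF z hz' hgen) (FQ_total hF)
    (fun b => algebraMap L K (g b)) ?_
  intro b hb
  have h1 : algebraMap L N (g b) = algebraMap L[X] N (C (g b)) := by
    rw [← hZ, aeval_C]
  have h2 : (⟨algebraMap L N (g b), hb⟩ : FQ (k := k) hF) =
      ⟨algebraMap L[X] N (C (g b)), mem_FQ_of hF⟩ := Subtype.ext h1
  rw [h2, piZ_alg, aeval_C]

end main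

end Pool.Agent.W558
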