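import Pool.Agent.W558.WA.Asm1
import Pool.Agent.W558.WD.Plane
import Pool.Agent.W558.WD.All
import Pool.Agent.W558.Var

set_option autoImplicit false
set_option linter.unusedVariables false
set_option linter.unusedSectionVars false

universe u

open Polynomial AlgebraicGeometry CategoryTheory

namespace Pool.Agent.W558

section frob

theorem frob_fixed {K : Type u} [Field K] (p : ℕ) [Fact p.Prime] [CharP K p] (w : K)
    (hw : w ^ p = w) : ∃ i : ℕ, w = i := by
  classical
  have hp : p.Prime := Fact.out
  by_contra hcon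
  push Not at hcon
  let r : K[X] := X ^ p - X
  have hd : r.natDegree = p := FiniteField.X_pow_card_sub_X_natDegree_eq K hp.one_lt
  have hr0 : r ≠ 0 := by
    intro h
    rw [h, natDegree_zero] at hd
    exact hp.ne_zero hd.symm
  have hsub : insert w ((Finset.range p).image fun i : ℕ => (i : K)) ⊆ r.roots.toFinset := by
    intro y hy
    rw [Multiset.mem_toFinset, mem_roots hr0, IsRoot.def]
    rw [Finset.mem_insert, Finset.mem_image] at hy
    rcases hy with rfl | ⟨i, -, rfl⟩
    · simp [r, hw]
    · have h1 : ((i : ℕ) : K) ^ p = i := by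
        have h2 : ((i : ZMod p)) ^ p = i := ZMod.pow_card _
        have h3 := congrArg (ZMod.castHom (dvd_refl p) K) h2
        rw [map_pow, map_natCast] at h3
        exact h3
      simp [r, h1]
  have hcard := Finset.card_le_card hsub
  have h2 : (insert w ((Finset.range p).image fun i : ℕ => (i : K))).card = p + 1 := by
    rw [Finset.card_insert_of_notMem, Finset.card_image_of_injOn, Finset.card_range]
    · intro i hi j hj hij
      simp only [Finset.coe_range, Set.mem_Iio] at hi hj
      exact CharP.natCast_injOn_Iio K p hi hj hij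
    · intro h
      rw [Finset.mem_image] at h
      obtain ⟨i, -, hi⟩ := h
      exact hcon i hi.symm
  have h3 : r.roots.toFinset.card ≤ p := by
    refine (Multiset.toFinset_card_le _).trans ?_
    exact (card_roots' r).trans hd.le
  omega

end frob

section surf

/-- The normal form for the projective plane. -/
theorem gma_plane (hgin : WA_gin.{u}) (hgir : WA_gir.{u}) (hloc : WA_loc.{u})
    (p : ℕ) [Fact p.Prime] (k : Type u) [Field k] [PerfectField k] [CharP k p]
    (G : Type) [Finite G] (f : RF k (Fin 2)) (c : G → RF k (Fin 2)) (hc : ∀ b, c b ≠ 0) :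
    GMA p k (fun _ : Unit => f) c := by
  have h2 := trdeg_RF2 k
  obtain ⟨s⟩ := all_init k (RF k (Fin 2)) (hasModel_RF2 k)
  obtain ⟨s', Γ, hF, hCO⟩ := hgin k (RF k (Fin 2)) h2 s G c hc f
  obtain ⟨s'', Γ', hF', hCO', hgd⟩ := hgir p k (RF k (Fin 2)) h2 s' G c Γ hF f hCO
  obtain ⟨T, I, hT, hI, M, Γ'', n, a, h, hFn, hN, hR⟩ :=
    hloc p k (RF k (Fin 2)) h2 s'' G c Γ' hF' f hCO' hgd
  refine ⟨T, I, hT, hI, M, fun _ => n, fun t _ => a t, fun t _ => h t, Γ'',
    ⟨fun _ => hN.n0, fun t _ => hN.hA t, fun t _ => hN.eq t, ?_⟩, hFn, hR⟩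
  intro t κ _ _ φ j hj
  obtain ⟨v, hv⟩ := hN.ln t κ φ hj
  exact ⟨v, hv, fun l hl => absurd (Subsingleton.elim l j) hl⟩

end surf

/-- The statements used for the assembly. -/
structure ASPack : Prop where
  gin : WA_gin.{u}
  gir : WA_gir.{u}
  loc : WA_loc.{u}
  sum : WA_sum.{u}
  prod : WA_prod.{u}
  irr : WA_irr.{u}
  bun : WA_bun.{u}
  ppr : WA_ppr.{u}
  pcut : WA_pcut.{u}

section main

variable (hall : ASPack.{u})
  (p : ℕ) [Fact p.Prime] (k K : Type u) [Field k] [PerfectField k] [CharP k p] [Field K]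
  [Algebra k K] (m : ℕ) (x : Fin m → Fin 2 → K) (P Q : Fin m → MvPolynomial (Fin 2) k) (z : K)

include hall

/-- Models of the Artin-Schreier extensions of the field of rational functions in
`2 * m` variables given by sums of functions of two variables each. -/
theorem as_model (hx : AlgebraicIndependent k (fun q : Fin m × Fin 2 => x q.1 q.2))
    (hQ : ∀ i, Q i ≠ 0)
    (hz : z ^ p - z = ∑ i, MvPolynomial.aeval (x i) (P i) / MvPolynomial.aeval (x i) (Q i))
    (hzx : z ∉ IntermediateField.adjoin k (Set.range fun q : Fin m × Fin 2 => x q.1 q.2))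
    (hgen : IntermediateField.adjoin k
      (insert z (Set.range fun q : Fin m × Fin 2 => x q.1 q.2)) = ⊤)
    (G : Type) [Finite G] (s : G → K) (R S : G → Fin m → MvPolynomial (Fin 2) k)
    (hR : ∀ b i, R b i ≠ 0) (hS : ∀ b i, S b i ≠ 0)
    (hs : ∀ b, s b = ∏ i, MvPolynomial.aeval (x i) (R b i) / MvPolynomial.aeval (x i) (S b i)) :
    ∃ (T I : Type) (_ : Finite T) (_ : Fintype I) (M : LM (⊥ : Subalgebra k K) ⊤ T I)
      (Γ : G → I → ℤ), Fn M s Γ ∧ Frc M := by
  have hp : p.Prime := Fact.out
  let L := RF k (Fin m × Fin 2)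
  let E := RF k (Fin 2)
  let _ : Algebra L K := (rsub hx).toRingHom.toAlgebra
  have tL : IsScalarTower k L K := IsScalarTower.of_algebraMap_eq fun c =>
    ((rsub hx).commutes c).symm
  have hcK : CharP K p := charP_of_injective_algebraMap (algebraMap k K).injective p
  have hcL : CharP L p := charP_of_injective_algebraMap (algebraMap k L).injective p
  let v : Fin m × Fin 2 → L := fun q => algebraMap (MvPolynomial (Fin m × Fin 2) k) L
    (MvPolynomial.X q)
  have hv : Rat (k := k) v := rat_RF _
  have hvi : ∀ i, AlgebraicIndependent k (fun c => v (i, c)) := fun i =>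
    hv.ind.comp (fun c => (i, c)) (Prod.mk_right_injective i)
  have hLK : ∀ y : L, algebraMap L K y = rsub hx y := fun y => rfl
  have hval : ∀ (i : Fin m) (A : MvPolynomial (Fin 2) k),
      algebraMap L K (rsub (hvi i) (algebraMap (MvPolynomial (Fin 2) k) E A)) =
        MvPolynomial.aeval (x i) A := by
    intro i A
    have hxi : AlgebraicIndependent k (fun c => x i c) :=
      hx.comp (fun c => (i, c)) (Prod.mk_right_injective i)
    rw [hLK, rsub_rsub (hvi i) (rsub hx) hxi (fun c => rsub_X hx (i, c)), rsub_algebraMap]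
  let f : Fin m → E := fun i => algebraMap (MvPolynomial (Fin 2) k) E (P i) /
    algebraMap (MvPolynomial (Fin 2) k) E (Q i)
  let c : Fin m → G → E := fun i b => algebraMap (MvPolynomial (Fin 2) k) E (R b i) /
    algebraMap (MvPolynomial (Fin 2) k) E (S b i)
  have hne : ∀ A : MvPolynomial (Fin 2) k, A ≠ 0 →
      algebraMap (MvPolynomial (Fin 2) k) E A ≠ 0 := fun A hA =>
    (FaithfulSMul.algebraMap_eq_zero_iff _ _).not.2 hA
  have hc : ∀ i b, c i b ≠ 0 := fun i b => div_ne_zero (hne _ (hR b i)) (hne _ (hS b i))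
  have hGM := gma_family (p := p) hall.prod G
    (fun f c hc => gma_plane hall.gin hall.gir hall.loc p k G f c hc) (Fin m) L v hv f c hc
  classical
  -- the sum of the functions
  let fL : L := ∑ i, rsub (hvi i) (f i)
  have hfK : algebraMap L K fL = z ^ p - z := by
    rw [hz, map_sum]
    refine Finset.sum_congr rfl fun i _ => ?_
    rw [map_div₀, map_div₀, hval, hval]
  have hLx : ∀ b : L, algebraMap L K b ∈ IntermediateField.adjoin k
      (Set.range fun q : Fin m × Fin 2 => x q.1 q.2) := by
    intro b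
    rw [hLK]
    obtain ⟨A, B, hB, h4⟩ := hv.gen b
    have h5 : ∀ A : MvPolynomial (Fin m × Fin 2) k,
        rsub hx (MvPolynomial.aeval v A) ∈ IntermediateField.adjoin k
          (Set.range fun q : Fin m × Fin 2 => x q.1 q.2) := by
      intro A
      have h6 : rsub hx (MvPolynomial.aeval v A) =
          MvPolynomial.aeval (fun q : Fin m × Fin 2 => x q.1 q.2) A := by
        rw [← AlgHom.comp_apply, MvPolynomial.comp_aeval]
        congr 2
        funext q
        exact rsub_X hx q
      rw [h6]
      apply IntermediateField.algebra_adjoin_le_adjoin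
      rw [Algebra.adjoin_range_eq_range_aeval]
      exact ⟨A, rfl⟩
    have hB0 : MvPolynomial.aeval v B ≠ 0 := fun h =>
      hB ((injective_iff_map_eq_zero _).1 hv.ind B h)
    have h7 : b = MvPolynomial.aeval v A / MvPolynomial.aeval v B := (eq_div_iff hB0).2 h4
    rw [h7, map_div₀]
    exact IntermediateField.div_mem _ (h5 A) (h5 B)
  have hnp : ∀ b : L, b ^ p - b ≠ fL := by
    intro b hb
    have h1 : (algebraMap L K b) ^ p - algebraMap L K b = z ^ p - z := by
      rw [← map_pow, ← map_sub, hb, hfK]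
    have h2 : (z - algebraMap L K b) ^ p = z - algebraMap L K b := by
      rw [sub_pow_char]
      linear_combination -h1
    obtain ⟨i, hi⟩ := frob_fixed p _ h2
    apply hzx
    have h3 : z = algebraMap L K (b + (i : L)) := by
      rw [map_add, map_natCast]
      linear_combination hi
    rw [h3]
    exact hLx _
  have hm : 0 < m := by
    rcases Nat.eq_zero_or_pos m with rfl | h
    · exfalso
      refine hnp 0 ?_
      rw [zero_pow hp.ne_zero, sub_zero]
      exact (Fintype.sum_empty _).symm
    · exact h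
  have hne' : Nonempty (Fin m) := ⟨⟨0, hm⟩⟩
  have hg : ∀ h0 : Fintype (Fin m), fL = Finset.sum (@Finset.univ (Fin m) h0)
      (fun i => rsub (hvi i) (f i)) := by
    intro h0
    exact Finset.sum_congr (by ext i; simp only [Finset.mem_univ]) fun _ _ => rfl
  obtain ⟨T1, I1, hT1, hI1, M1, n1, a1, h1, Γ1, hN1, hF1, hR1⟩ :=
    gma_sum hall.sum hGM fL (fun h0 => hg h0)
  have hF1' := hF1.prod
  have hwgen : ∀ y : K, ∃ A : L[X], aeval z A = y := by
    have hint : IsIntegral L z := by
      refine ⟨X ^ p - (X + C fL), ?_, ?_⟩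
      · apply monic_X_pow_sub
        rw [degree_X_add_C]
        exact_mod_cast hp.one_lt
      · rw [← aeval_def, map_sub, map_add, map_pow, aeval_X, aeval_C, hfK]
        ring
    have htop : IntermediateField.adjoin L {z} = ⊤ := by
      rw [eq_top_iff]
      intro y _
      have hy : y ∈ IntermediateField.adjoin k
        (insert z (Set.range fun q : Fin m × Fin 2 => x q.1 q.2)) := by
        rw [hgen]; trivial
      have hle : IntermediateField.adjoin k
        (insert z (Set.range fun q : Fin m × Fin 2 => x q.1 q.2)) ≤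
          (IntermediateField.adjoin L {z}).restrictScalars k := by
        rw [IntermediateField.adjoin_le_iff]
        rintro y (hyz | ⟨q, rfl⟩)
        · rw [hyz]
          exact IntermediateField.mem_adjoin_simple_self L z
        · change x q.1 q.2 ∈ IntermediateField.adjoin L {z}
          have e1 : x q.1 q.2 = algebraMap L K (v q) := (rsub_X hx q).symm
          rw [e1]
          exact IntermediateField.algebraMap_mem _ _
      exact hle hy
    intro y
    have h8 : y ∈ Algebra.adjoin L {z} := by
      have h9 : y ∈ (IntermediateField.adjoin L {z}).toSubalgebra := by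
        rw [htop]; trivial
      rwa [IntermediateField.adjoin_simple_toSubalgebra_of_isAlgebraic hint.isAlgebraic] at h9
    rw [Algebra.adjoin_singleton_eq_range_aeval] at h8
    exact h8
  obtain ⟨T', I', hT', hI', M', Γ', hF', hR'⟩ := exists_LM_as hall.irr hall.bun hall.ppr
    hall.pcut p k L K M1 fL n1 a1 h1 _ _ hN1 hR1 hF1' hnp z hfK.symm hwgen
  refine ⟨T', I', hT', hI', M', Γ', ?_, hR'⟩
  have e : (fun b => algebraMap L K (∏ j, rsub (hvi j) (c j b))) = s := by
    funext b
    rw [hs, map_prod]
    refine Finset.prod_congr rfl fun i _ => ?_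
    rw [map_div₀, map_div₀, hval, hval]
  rw [← e]
  exact hF'

/-- Smooth charts over Artin-Schreier covers. -/
theorem as_LM (hx : AlgebraicIndependent k (fun q : Fin m × Fin 2 => x q.1 q.2))
    (hQ : ∀ i, Q i ≠ 0)
    (hz : z ^ p - z = ∑ i, MvPolynomial.aeval (x i) (P i) / MvPolynomial.aeval (x i) (Q i))
    (hzx : z ∉ IntermediateField.adjoin k (Set.range fun q : Fin m × Fin 2 => x q.1 q.2))
    (hgen : IntermediateField.adjoin k
      (insert z (Set.range fun q : Fin m × Fin 2 => x q.1 q.2)) = ⊤)
    (A : Type u) [CommRing A] [IsDomain A] [Algebra k A] [Algebra.FiniteType k A] [Algebra A K]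
    [IsScalarTower k A K] [IsFractionRing A K] (S : Finset A)
    (hS : ∀ a ∈ S, ∃ F H : Fin m → MvPolynomial (Fin 2) k, (∀ i, F i ≠ 0 ∧ H i ≠ 0) ∧
      algebraMap A K a = ∏ i, MvPolynomial.aeval (x i) (F i) / MvPolynomial.aeval (x i) (H i))
    (hA : ∀ a : A, IsIntegral (Algebra.adjoin k (S : Set A)) a) :
    ∃ (T I : Type) (_ : Finite T) (_ : Fintype I),
      Nonempty (LM (IsScalarTower.toAlgHom k A K).range (IsScalarTower.toAlgHom k A K).range
        T I) := by
  classical
  let ρ : A →ₐ[k] K := IsScalarTower.toAlgHom k A K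
  have hρ : Function.Injective ρ := IsFractionRing.injective A K
  obtain ⟨e⟩ : Nonempty ({a // a ∈ S} ≃ Fin S.card) := ⟨S.equivFin⟩
  choose F H hFH hFH' using fun b : Fin S.card => hS (e.symm b).1 (e.symm b).2
  obtain ⟨T, I, hT, hI, M, Γ, hFn, hR⟩ := as_model hall p k K m x P Q z hx hQ hz hzx hgen
    (Fin S.card) (fun b => ρ (e.symm b).1) F H (fun b i => (hFH b i).1) (fun b i => (hFH b i).2)
    (fun b => hFH' b)
  have hfg : ρ.range.FG := by
    have h1 : (⊤ : Subalgebra k A).FG := Algebra.FiniteType.out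
    have h2 := h1.map ρ
    rwa [Algebra.map_top] at h2
  have hint : ∀ y ∈ ρ.range, IsIntegral (Algebra.adjoin k
      (Set.range fun b : Fin S.card => ρ (e.symm b).1)) y := by
    rintro _ ⟨a, rfl⟩
    have h1 : Algebra.adjoin k (Set.range fun b : Fin S.card => ρ (e.symm b).1) =
        (Algebra.adjoin k (S : Set A)).map ρ := by
      rw [AlgHom.map_adjoin]
      congr 1
      ext y
      constructor
      · rintro ⟨b, rfl⟩
        exact ⟨_, (e.symm b).2, rfl⟩
      · rintro ⟨a, ha, rfl⟩
        exact ⟨e ⟨a, ha⟩, by simp⟩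
    rw [h1]
    obtain ⟨B, hB, hB'⟩ := hA a
    let φ : Algebra.adjoin k (S : Set A) →+* (Algebra.adjoin k (S : Set A)).map ρ :=
      { toFun := fun y => ⟨ρ y, ⟨y, y.2, rfl⟩⟩
        map_one' := Subtype.ext (map_one ρ)
        map_mul' := fun y y' => Subtype.ext (map_mul ρ _ _)
        map_zero' := Subtype.ext (map_zero ρ)
        map_add' := fun y y' => Subtype.ext (map_add ρ _ _) }
    refine ⟨B.map φ, hB.map φ, ?_⟩
    rw [eval₂_map]
    have h2 : ((algebraMap ((Algebra.adjoin k (S : Set A)).map ρ) K).comp φ) =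
        ρ.toRingHom.comp (algebraMap (Algebra.adjoin k (S : Set A)) A) := RingHom.ext fun y => rfl
    rw [h2]
    have h3 := congrArg ρ.toRingHom hB'
    rw [hom_eval₂, map_zero] at h3
    exact h3
  have hfr : ∀ y : K, ∃ a ∈ ρ.range, ∃ b ∈ ρ.range, b ≠ 0 ∧ y = a * b⁻¹ := by
    intro y
    obtain ⟨a, b, hb, rfl⟩ := IsFractionRing.div_surjective (A := A) y
    exact ⟨_, ⟨a, rfl⟩, _, ⟨b, rfl⟩, by
      have := nonZeroDivisors.ne_zero hb
      exact (FaithfulSMul.algebraMap_eq_zero_iff A K).not.2 this, div_eq_mul_inv _ _⟩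
  obtain ⟨T', I', hT', hI', M', -⟩ := wd_res k K T I (Fin S.card) M
    (fun b => ρ (e.symm b).1) Γ hFn hR ρ.range hfg (fun b => ⟨_, rfl⟩) hint hfr
  exact ⟨T', I', hT', hI', ⟨M'⟩⟩

/-- Resolution of Artin-Schreier covers. -/
theorem as_resolution (hx : AlgebraicIndependent k (fun q : Fin m × Fin 2 => x q.1 q.2))
    (hQ : ∀ i, Q i ≠ 0)
    (hz : z ^ p - z = ∑ i, MvPolynomial.aeval (x i) (P i) / MvPolynomial.aeval (x i) (Q i))
    (hzx : z ∉ IntermediateField.adjoin k (Set.range fun q : Fin m × Fin 2 => x q.1 q.2))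
    (hgen : IntermediateField.adjoin k
      (insert z (Set.range fun q : Fin m × Fin 2 => x q.1 q.2)) = ⊤)
    (A : Type u) [CommRing A] [IsDomain A] [Algebra k A] [Algebra.FiniteType k A] [Algebra A K]
    [IsScalarTower k A K] [IsFractionRing A K] (S : Finset A)
    (hS : ∀ a ∈ S, ∃ F H : Fin m → MvPolynomial (Fin 2) k, (∀ i, F i ≠ 0 ∧ H i ≠ 0) ∧
      algebraMap A K a = ∏ i, MvPolynomial.aeval (x i) (F i) / MvPolynomial.aeval (x i) (H i))
    (hA : ∀ a : A, IsIntegral (Algebra.adjoin k (S : Set A)) a) :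
    IsResolvableVariety (X := Spec (CommRingCat.of A))
      (Spec.map (CommRingCat.ofHom (algebraMap k A))) := by
  apply isResolvableVariety_spec
  obtain ⟨T, I, hT, hI, ⟨M⟩⟩ := as_LM hall p k K m x P Q z hx hQ hz hzx hgen A S hS hA
  exact hasResolution_of_LM _ (IsFractionRing.injective A K) M

end main

end Pool.Agent.W558
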