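import Pool.Agent.W558.WD.Stms

set_option autoImplicit false
set_option linter.unusedVariables false
set_option linter.unusedSectionVars false

universe u

open Polynomial AlgebraicGeometry CategoryTheory Pool.Agent.H920R2

namespace Pool.Agent.W558

section nf

variable {k K : Type u} [Field k] [Field K] [Algebra k K] {R0 R : Subalgebra k K} {T I : Type}

/-- Artin-Schreier normal form of the function `f`: on each chart `f = a ^ p - a + x ^ n * h` with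
`n ≤ 0`, such that the logarithmic form `d (x ^ n * h) / x ^ n` has no zeros on the poles. -/
structure NAS (p : ℕ) [Fintype I] (M : LM R0 R T I) (f : K) (n : I → ℤ) (a h : T → K) :
    Prop where
  n0 : ∀ i, n i ≤ 0
  hA : ∀ t, h t ∈ M.A t
  eq : ∀ t, f = a t ^ p - a t + (∏ i, M.x t i ^ n i) * h t
  ln : ∀ t (κ : Type u) [Field κ] [Algebra k κ] (φ : M.A t →ₐ[k] κ),
    (∃ i, n i < 0 ∧ φ ⟨M.x t i, M.xA t i⟩ = 0) → ∃ v : LT φ (M.x t), om v n (hA t) ≠ 0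

/-- Joint Artin-Schreier normal form of the functions `f j`. -/
structure NBS (p : ℕ) [Fintype I] {ι : Type} (M : LM R0 R T I) (f : ι → K) (n : ι → I → ℤ)
    (a h : T → ι → K) : Prop where
  n0 : ∀ j i, n j i ≤ 0
  hA : ∀ t j, h t j ∈ M.A t
  eq : ∀ t j, f j = a t j ^ p - a t j + (∏ i, M.x t i ^ n j i) * h t j
  ln : ∀ t (κ : Type u) [Field κ] [Algebra k κ] (φ : M.A t →ₐ[k] κ) (j : ι),
    (∃ i, n j i < 0 ∧ φ ⟨M.x t i, M.xA t i⟩ = 0) →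
    ∃ v : LT φ (M.x t), om v (n j) (hA t j) ≠ 0 ∧ ∀ l, l ≠ j → om v (n l) (hA t l) = 0

end nf

section pa

variable {k N : Type u} [Field k] [Field N] [Algebra k N] {T I : Type}

/-- A model together with a function `F` which is the product of a monomial (with exponents
divisible by `p`) and of `y t ^ p - x ^ (-(p - 1) * μ) * y t - x ^ c * h t` on each chart, such that
`x` and `y t` have simple normal crossings, with some tangent vectors. -/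
structure PAS (p : ℕ) [Fintype I] (M : LM (⊥ : Subalgebra k N) ⊤ T I) (F : N)
    (Q : Subalgebra k N) (y h r : T → N) (c μ : I → ℤ) : Prop where
  yA : ∀ t, y t ∈ M.A t
  y0 : ∀ t, y t ≠ 0
  hA : ∀ t, h t ∈ M.A t
  rA : ∀ t, r t ∈ M.A t
  AQ : ∀ t, M.A t ≤ Q
  xQ : ∀ t i, (M.x t i)⁻¹ ∈ Q
  yQ : ∀ t, (y t)⁻¹ ∈ Q
  m0 : ∀ i, μ i ≤ 0
  cp : ∀ i, c i ≤ p
  cm : ∀ i, 0 < c i → μ i < 0
  eq : ∀ t, F = (∏ i, M.x t i ^ ((p : ℤ) * μ i)) *
    (y t ^ p - (∏ i, M.x t i ^ (-((p : ℤ) - 1) * μ i)) * y t - (∏ i, M.x t i ^ c i) * h t)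
  snc : ∀ t, SNC (M.A t) (ox (y t) (M.x t))
  ri : ∀ t (κ : Type u) [Field κ] [Algebra k κ] (φ : M.A t →ₐ[k] κ) (i : I),
    (μ i < 0 ∨ c i < 0) → φ ⟨M.x t i, M.xA t i⟩ = 0 →
    φ ⟨r t, rA t⟩ = 0 ∨ (0 < c i ∧ (y t)⁻¹ ∈ M.A t)
  ln : ∀ t (κ : Type u) [Field κ] [Algebra k κ] (φ : M.A t →ₐ[k] κ), φ ⟨r t, rA t⟩ = 0 →
    ∃ v : LT φ (ox (y t) (M.x t)), om v (fun o => o.elim 0 c) (hA t) ≠ 0
  vt : ∀ t (κ : Type u) [Field κ] [Algebra k κ] (φ : M.A t →ₐ[k] κ), (y t)⁻¹ ∈ M.A t ∨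
    ∃ D : TV φ, D.D ⟨y t, yA t⟩ ≠ 0 ∧ (∀ i, D.D ⟨M.x t i, M.xA t i⟩ = 0) ∧ D.D ⟨h t, hA t⟩ = 0
  vl : ∀ t (κ : Type u) [Field κ] [Algebra k κ] (φ : M.A t →ₐ[k] κ),
    ∃ v : LT φ (ox (y t) (M.x t)), v.D.D ⟨h t, hA t⟩ = 0 ∧ ∑ i, (c i : κ) * v.e (some i) = 0 ∧
      v.e none + ∑ i, (μ i : κ) * v.e (some i) = 1

end pa

section pt

variable {k E : Type u} [Field k] [Field E] [Algebra k E]

/-- The restriction of the ideal of the `θ f * X`, `θ` logarithmic derivation, to `u = 0` has the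
order `c`. -/
def Rs (O : Subalgebra k E) (b : Set E) (u v X f : E) (c : ℕ) : Prop :=
  (∀ θ ∈ Th O b, Ox O u v c (θ f * X)) ∧ ∃ θ ∈ Th O b, ¬ Ox O u v (c + 1) (θ f * X)

/-- The boundary is `x = 0`; the function `f` has the conductor `N` and the residual order `c`. -/
def DN (p : ℕ) (O : Subalgebra k E) (x y f : E) (N c : ℕ) : Prop :=
  ∃ a : E, (f - (a ^ p - a)) * x ^ N ∈ O ∧
    (1 ≤ N → Rs O (uo O x) x y (x ^ N) (f - (a ^ p - a)) c)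

/-- The boundary is `x * y = 0`; the function `f` has the conductors `N` and `M` and the residual
orders `c` and `d`. -/
def DC (p : ℕ) (O : Subalgebra k E) (x y f : E) (N M c d : ℕ) : Prop :=
  ∃ a : E, (f - (a ^ p - a)) * (x ^ N * y ^ M) ∈ O ∧
    (1 ≤ N → Rs O (uo O x ∪ uo O y) x y (x ^ N * y ^ M) (f - (a ^ p - a)) c) ∧
    (1 ≤ M → Rs O (uo O x ∪ uo O y) y x (x ^ N * y ^ M) (f - (a ^ p - a)) d)

/-- The boundary is `x * y = 0`; the residual ideal is the maximal ideal. -/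
def IM (p : ℕ) (O : Subalgebra k E) (x y f : E) (N M : ℕ) : Prop :=
  ∃ a : E, (f - (a ^ p - a)) * (x ^ N * y ^ M) ∈ O ∧
    (∀ θ ∈ Th O (uo O x ∪ uo O y), NU O (θ (f - (a ^ p - a)) * (x ^ N * y ^ M))) ∧
    ∀ z, NU O z → ∃ θ ∈ Th O (uo O x ∪ uo O y), θ (f - (a ^ p - a)) * (x ^ N * y ^ M) = z

/-- The point is good: the residual ideal is the unit ideal. -/
def GA (p : ℕ) (O : Subalgebra k E) (b : Set E) (f : E) : Prop :=
  ∃ a : E, ∃ z ∈ Submonoid.closure b, (f - (a ^ p - a)) * z ∈ O ∧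
    (f - (a ^ p - a) ∈ O ∨ ∃ θ ∈ Th O b, θ (f - (a ^ p - a)) * z ∈ O ∧
      ¬ NU O (θ (f - (a ^ p - a)) * z))

/-- Infinitely near bad points. -/
def rAS (p : ℕ) (f : E) (l' l : Subalgebra k E × Set E) : Prop :=
  (Pt2 l.1 ∧ Pt2 l'.1 ∧ Ty l.1 l.2 ∧ Ty l'.1 l'.2 ∧ Po l.1 l.2 f ∧ Po l'.1 l'.2 f ∧
    ¬ GA p l.1 l.2 f ∧ ¬ GA p l'.1 l'.2 f) ∧ ∃ e, Quad l.1 e l'.1 ∧ l'.2 = btr l.1 l.2 e l'.1

/-- The function `f` has no poles outside of the boundary. -/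
def CA (s : SM k E) (f : E) : Prop := ∀ W, s.Dv W → s.Bdy W ∨ f ∈ W

end pt

end Pool.Agent.W558
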